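import Pool.Agent.Helper68.QC.St2

/-!
# Project QD, PART M, module SMO: smoothing operators
-/

set_option autoImplicit false

open MeasureTheory Set Filter Topology Complex
open scoped ContDiff ComplexConjugate ENNReal

namespace Pool.Agent.Helper30.QCM

open Pool.Agent.Helper68.QC

theorem wrap_add {N : ℝ} (hN : 0 < N) (x : ℝ) : wrap N (x + 2 * N) = wrap N x := by
  unfold wrap
  have h : (x + 2 * N + N) / (2 * N) = (x + N) / (2 * N) + 1 := by
    field_simp
    ring
  rw [h, Int.floor_add_one]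
  push_cast
  ring

theorem wrap_eq {N x : ℝ} (h1 : -N ≤ x) (h2 : x < N) : wrap N x = x := by
  unfold wrap
  have hN : 0 < 2 * N := by linarith
  have h : ⌊(x + N) / (2 * N)⌋ = 0 := by
    rw [Int.floor_eq_zero_iff]
    constructor
    · apply div_nonneg _ hN.le
      linarith
    · rw [div_lt_one hN]
      linarith
  rw [h]
  simp

theorem wrap_meas (N : ℝ) : Measurable (wrap N) := by
  unfold wrap
  have h : Measurable fun x : ℝ => ((⌊(x + N) / (2 * N)⌋ : ℤ) : ℝ) := by
    have h1 : Measurable fun x : ℝ => (x + N) / (2 * N) := by fun_prop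
    exact (measurable_from_top (f := fun n : ℤ => (n : ℝ))).comp h1.floor
  exact measurable_id.sub (h.const_mul (2 * N))

theorem per_meas (N : ℝ) {μ : ℂ → ℂ} (hμ : Measurable μ) : Measurable (per N μ) := by
  unfold per
  have h : Measurable fun z : ℂ => (⟨wrap N z.re, wrap N z.im⟩ : ℂ) := by
    have h1 : (fun z : ℂ => (⟨wrap N z.re, wrap N z.im⟩ : ℂ)) =
        fun z : ℂ => ((wrap N z.re : ℝ) : ℂ) + ((wrap N z.im : ℝ) : ℂ) * I := by
      funext z
      exact Complex.mk_eq_add_mul_I _ _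
    rw [h1]
    have h2 : Measurable fun z : ℂ => wrap N z.re := (wrap_meas N).comp Complex.measurable_re
    have h3 : Measurable fun z : ℂ => wrap N z.im := (wrap_meas N).comp Complex.measurable_im
    exact (Complex.measurable_ofReal.comp h2).add ((Complex.measurable_ofReal.comp h3).mul_const I)
  exact hμ.comp h

theorem locInt {g : ℂ → ℂ} {C : ℝ} (hg : Measurable g) (hC : ∀ z, ‖g z‖ ≤ C) :
    LocallyIntegrable g volume := by
  have h : LocallyIntegrable (fun _ : ℂ => C) volume := locallyIntegrable_const C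
  refine h.mono hg.aestronglyMeasurable (Eventually.of_forall fun z => ?_)
  have h0 : 0 ≤ C := (norm_nonneg _).trans (hC z)
  rw [Real.norm_of_nonneg h0]
  exact hC z

theorem per_le {N C : ℝ} {μ : ℂ → ℂ} (hC : ∀ z, ‖μ z‖ ≤ C) (z : ℂ) : ‖per N μ z‖ ≤ C := hC _

theorem per_loc (N : ℝ) {μ : ℂ → ℂ} {C : ℝ} (hμ : Measurable μ) (hC : ∀ z, ‖μ z‖ ≤ C) :
    LocallyIntegrable (per N μ) volume := locInt (per_meas N hμ) (per_le hC)

theorem per_eq {N : ℝ} (μ : ℂ → ℂ) {z : ℂ} (h : ‖z‖ < N) : per N μ z = μ z := by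
  unfold per
  have h1 := (Complex.abs_re_le_norm z).trans_lt h
  have h2 := (Complex.abs_im_le_norm z).trans_lt h
  rw [abs_lt] at h1 h2
  rw [wrap_eq h1.1.le h1.2, wrap_eq h2.1.le h2.2]

theorem sm_part1 (hMO1 : StMO1) (n : ℕ) (C : ℝ) (μ : ℂ → ℂ) (hμ : Measurable μ)
    (hC : ∀ z, ‖μ z‖ ≤ C) : ContDiff ℝ ∞ (sm n μ) ∧
    (∀ z, ‖sm n μ z‖ ≤ C) ∧ (∀ z, sm n μ (z + (2 * ((n : ℝ) + 1) : ℝ)) = sm n μ z) ∧
    (∀ z, sm n μ (z + (2 * ((n : ℝ) + 1) : ℝ) * I) = sm n μ z) := by
  obtain ⟨m1, -, m3, -, -, -, m7⟩ := hMO1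
  have hN : (0 : ℝ) < (n : ℝ) + 1 := by positivity
  have hC0 : 0 ≤ C := (norm_nonneg _).trans (hC 0)
  refine ⟨(m1 n _ (per_loc _ hμ hC)).1, m3 n _ C hC0 (per_le hC), fun z => ?_, fun z => ?_⟩
  · unfold sm
    rw [← m7]
    congr 1
    funext y
    unfold per
    have h1 : (y + ((2 * ((n : ℝ) + 1) : ℝ) : ℂ)).re = y.re + 2 * ((n : ℝ) + 1) := by
      rw [Complex.add_re, Complex.ofReal_re]
    have h2 : (y + ((2 * ((n : ℝ) + 1) : ℝ) : ℂ)).im = y.im := by
      rw [Complex.add_im, Complex.ofReal_im, add_zero]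
    rw [h1, h2, wrap_add hN]
  · unfold sm
    rw [← m7]
    congr 1
    funext y
    unfold per
    have h1 : (y + ((2 * ((n : ℝ) + 1) : ℝ) : ℂ) * I).re = y.re := by
      rw [Complex.add_re, Complex.re_ofReal_mul, Complex.I_re, mul_zero, add_zero]
    have h2 : (y + ((2 * ((n : ℝ) + 1) : ℝ) : ℂ) * I).im = y.im + 2 * ((n : ℝ) + 1) := by
      rw [Complex.add_im, Complex.im_ofReal_mul, Complex.I_im, mul_one]
    rw [h1, h2, wrap_add hN]

theorem sm_part3 (hMO1 : StMO1) (hMO2 : StMO2) (C : ℝ) (μ : ℂ → ℂ) (hμ : Measurable μ)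
    (hC : ∀ z, ‖μ z‖ ≤ C) (R : ℝ) :
    Tendsto (fun n => ∫ z in Metric.ball (0 : ℂ) R, ‖sm n μ z - μ z‖) atTop (𝓝 0) := by
  obtain ⟨m1, -, m3, -, m5, -, m7⟩ := hMO1
  obtain ⟨S, hS⟩ : ∃ S : Set ℂ, S = Metric.closedBall 0 (|R| + 1) := ⟨_, rfl⟩
  have hSm : MeasurableSet S := by rw [hS]; exact Metric.isClosed_closedBall.measurableSet
  have hSf : volume S < ⊤ := by rw [hS]; exact measure_closedBall_lt_top
  obtain ⟨h, hh⟩ : ∃ h : ℂ → ℂ, h = S.indicator μ := ⟨_, rfl⟩
  have hhm : Measurable h := by rw [hh]; exact hμ.indicator hSm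
  have hhL : MemLp h 2 volume := by
    rw [hh, memLp_indicator_iff_restrict hSm]
    have : IsFiniteMeasure (volume.restrict S) := ⟨by rw [Measure.restrict_apply_univ]; exact hSf⟩
    exact MemLp.of_bound hμ.aestronglyMeasurable C (Eventually.of_forall hC)
  have hC0 : 0 ≤ C := (norm_nonneg _).trans (hC 0)
  have hhC : ∀ z, ‖h z‖ ≤ C := by
    intro z
    rw [hh]
    by_cases hz : z ∈ S
    · rw [indicator_of_mem hz]; exact hC z
    · rw [indicator_of_notMem hz, norm_zero]; exact hC0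
  have hhloc : LocallyIntegrable h volume := locInt hhm hhC
  have hlim := hMO2.2 h hhL
  -- equality of the integrals for large `n`
  have heq : ∀ᶠ n : ℕ in atTop, ∫ z in Metric.ball (0 : ℂ) R, ‖mol n h z - h z‖ =
      ∫ z in Metric.ball (0 : ℂ) R, ‖sm n μ z - μ z‖ := by
    obtain ⟨n0, hn0⟩ := exists_nat_gt |R|
    filter_upwards [eventually_ge_atTop n0] with n hn
    apply setIntegral_congr_fun measurableSet_ball
    intro z hz
    rw [Metric.mem_ball, dist_zero_right] at hz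
    have hzR : ‖z‖ < |R| := hz.trans_le (le_abs_self R)
    have hnR : |R| < (n : ℝ) := hn0.trans_le (by exact_mod_cast hn)
    have h1 : h z = μ z := by
      rw [hh, indicator_of_mem]
      rw [hS, Metric.mem_closedBall, dist_zero_right]
      linarith
    have h2 : sm n μ z = mol n h z := by
      unfold sm
      apply m5
      intro y hy
      have h3 : 1 / ((n : ℝ) + 1) ≤ 1 := by
        rw [div_le_one (by positivity)]
        have : (0 : ℝ) ≤ n := by positivity
        linarith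
      have h4 : ‖y‖ ≤ ‖y - z‖ + ‖z‖ := by
        calc ‖y‖ = ‖(y - z) + z‖ := by rw [sub_add_cancel]
          _ ≤ _ := norm_add_le _ _
      rw [per_eq μ (by linarith), hh, indicator_of_mem]
      rw [hS, Metric.mem_closedBall, dist_zero_right]
      linarith
    show ‖mol n h z - h z‖ = ‖sm n μ z - μ z‖
    rw [h1, h2]
  refine Tendsto.congr' heq ?_
  have : IsFiniteMeasure (volume.restrict (Metric.ball (0 : ℂ) R)) :=
    ⟨by rw [Measure.restrict_apply_univ]; exact measure_ball_lt_top⟩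
  have hmeas : ∀ n, Measurable fun z => mol n h z - h z := fun n =>
    ((m1 n h hhloc).1.continuous.measurable).sub hhm
  have hint : ∀ n, ∫ z in Metric.ball (0 : ℂ) R, ‖mol n h z - h z‖ =
      (eLpNorm (fun z => mol n h z - h z) 1 (volume.restrict (Metric.ball (0 : ℂ) R))).toReal := by
    intro n
    rw [eLpNorm_one_eq_lintegral_enorm, integral_norm_eq_lintegral_enorm
      (hmeas n).aestronglyMeasurable]
  simp_rw [hint]
  rw [← ENNReal.toReal_zero]
  apply (ENNReal.tendsto_toReal ENNReal.zero_ne_top).comp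
  have hbd : ∀ n, eLpNorm (fun z => mol n h z - h z) 1 (volume.restrict (Metric.ball (0 : ℂ) R)) ≤
      eLpNorm (fun z => mol n h z - h z) 2 volume *
        (volume.restrict (Metric.ball (0 : ℂ) R)) univ ^ (1 / (1 : ℝ≥0∞).toReal - 1 / (2 : ℝ≥0∞).toReal) := by
    intro n
    refine (eLpNorm_le_eLpNorm_mul_rpow_measure_univ (p := 1) (q := 2) (by norm_num)
      (hmeas n).aestronglyMeasurable).trans ?_
    gcongr
    exact Measure.restrict_le_self
  refine tendsto_of_tendsto_of_tendsto_of_le_of_le tendsto_const_nhds ?_ (fun n => bot_le) hbd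
  have hfin : (volume.restrict (Metric.ball (0 : ℂ) R)) univ ^
      (1 / (1 : ℝ≥0∞).toReal - 1 / (2 : ℝ≥0∞).toReal) ≠ ⊤ := by
    apply ENNReal.rpow_ne_top_of_nonneg
    · norm_num
    · exact measure_ne_top _ _
  have h5 := ENNReal.Tendsto.mul_const hlim (Or.inr hfin)
  rwa [zero_mul] at h5

theorem pSMO (hMO1 : StMO1) (hMO2 : StMO2) : Pool.Agent.Helper68.QC.StSMO := by
  refine ⟨fun n C μ hμ hC => sm_part1 hMO1 n C μ hμ hC, ?_,
    fun C μ hμ hC R => sm_part3 hMO1 hMO2 C μ hμ hC R⟩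
  intro n C μ ν t hμ hν hμC hνC z
  obtain ⟨m1, -, m3, -, m5, m6, m7⟩ := hMO1
  exact m6 n (per ((n : ℝ) + 1) μ) (per ((n : ℝ) + 1) ν) t z (per_loc _ hμ hμC) (per_loc _ hν hνC)

end Pool.Agent.Helper30.QCM
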