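import Pool.Agent.Helper68.QC.St6

open MeasureTheory Set Filter Topology Complex
open scoped ContDiff ComplexConjugate ENNReal

namespace Pool.Agent.Helper30.QCM
open Pool.Agent.Helper68.QC

/-- continuous functions with the same exponential differ by a constant -/
lemma stk_const {g : ℂ → ℂ} {κ : ℂ} (hg : ContinuousOn g {0}ᶜ)
    (he : ∀ ξ, ξ ≠ 0 → Complex.exp (g ξ) = Complex.exp κ) (h1 : g 1 = κ) :
    ∀ ξ, ξ ≠ 0 → g ξ = κ := by
  have hcon : IsPreconnected ({0}ᶜ : Set ℂ) :=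
    (isConnected_compl_singleton_of_one_lt_rank (by simp) 0).isPreconnected
  intro ξ hξ
  set r : ℂ → ℝ := fun x => (g x - κ).im / (2 * Real.pi) with hrdef
  have hr : ContinuousOn r {0}ᶜ := by
    have : ContinuousOn (fun x => (g x - κ).im) {0}ᶜ :=
      Complex.continuous_im.comp_continuousOn (hg.sub continuousOn_const)
    exact this.div_const _
  have hint : ∀ x, x ≠ 0 → ∃ n : ℤ, g x - κ = n * (2 * Real.pi * I) := by
    intro x hx
    obtain ⟨n, hn⟩ := Complex.exp_eq_exp_iff_exists_int.1 (he x hx)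
    exact ⟨n, by rw [hn]; ring⟩
  have hpi : (0 : ℝ) < 2 * Real.pi := by positivity
  have hrint : ∀ x, ∀ n : ℤ, g x - κ = n * (2 * Real.pi * I) → r x = n := by
    intro x n hn
    rw [hrdef]
    simp only
    rw [hn]
    have : ((n : ℂ) * (2 * Real.pi * I)).im = n * (2 * Real.pi) := by
      simp
    rw [this]
    field_simp
  have hoc : (r '' {0}ᶜ).OrdConnected := (hcon.image r hr).ordConnected
  obtain ⟨n, hn⟩ := hint ξ hξ
  have hrn := hrint ξ n hn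
  have hr1 : r 1 = 0 := by simp [hrdef, h1]
  have m1 : (n : ℝ) ∈ r '' {0}ᶜ := ⟨ξ, hξ, hrn⟩
  have m0 : (0 : ℝ) ∈ r '' {0}ᶜ := ⟨1, by simp, hr1⟩
  rcases lt_trichotomy n 0 with h | h | h
  · exfalso
    have h' : (n : ℝ) ≤ -1 := by exact_mod_cast (by omega : n ≤ -1)
    obtain ⟨y, hy, hy2⟩ := hoc.out m1 m0 (⟨by linarith, by norm_num⟩ : (-1/2 : ℝ) ∈ Icc (n : ℝ) 0)
    obtain ⟨m, hm⟩ := hint y hy
    rw [hrint y m hm] at hy2
    have h3 : (2 * m : ℝ) = -1 := by linarith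
    have h4 : 2 * m = -1 := by exact_mod_cast h3
    omega
  · rw [h] at hn
    simp only [Int.cast_zero, zero_mul] at hn
    exact sub_eq_zero.1 hn
  · exfalso
    have h' : (1 : ℝ) ≤ n := by exact_mod_cast (by omega : 1 ≤ n)
    obtain ⟨y, hy, hy2⟩ := hoc.out m0 m1 (⟨by norm_num, by linarith⟩ : (1/2 : ℝ) ∈ Icc (0 : ℝ) n)
    obtain ⟨m, hm⟩ := hint y hy
    rw [hrint y m hm] at hy2
    have h3 : (2 * m : ℝ) = 1 := by linarith
    have h4 : 2 * m = 1 := by exact_mod_cast h3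
    omega

/-- division of a test function on `{0}ᶜ` by a smooth function -/
lemma stk_div {χ g : ℂ → ℂ} (hχ : Tst {0}ᶜ χ) (hg : ∀ z, z ≠ 0 → ContDiffAt ℝ ∞ g z) :
    Tst {0}ᶜ (fun z => g z * χ z) := by
  refine ⟨?_, hχ.cpt.mul_left, (closure_mono (fun z hz => ?_)).trans hχ.sub⟩
  · rw [contDiff_iff_contDiffAt]
    intro z
    by_cases hz : z = 0
    · have h0 : z ∉ tsupport χ := fun h => hχ.sub h (by simp [hz])
      have h1 : χ =ᶠ[𝓝 z] 0 := notMem_tsupport_iff_eventuallyEq.1 h0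
      have h2 : (fun x => g x * χ x) =ᶠ[𝓝 z] fun _ => (0 : ℂ) := by
        filter_upwards [h1] with x hx
        simp [hx]
      exact contDiffAt_const.congr_of_eventuallyEq h2
    · exact (hg z hz).mul hχ.smooth.contDiffAt
  · have := hz
    simp only [Function.mem_support, ne_eq, mul_eq_zero, not_or] at this ⊢
    exact this.2

lemma cd_inv {z : ℂ} (hz : z ≠ 0) : ContDiffAt ℝ ∞ (fun x : ℂ => x⁻¹) z :=
  ContDiffAt.inv contDiffAt_id hz

lemma cd_conj (z : ℂ) : ContDiffAt ℝ ∞ (fun x : ℂ => conj x) z :=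
  (Complex.conjCLE : ℂ →L[ℝ] ℂ).contDiff.contDiffAt

lemma cd_cinv {z : ℂ} (hz : z ≠ 0) : ContDiffAt ℝ ∞ (fun x : ℂ => (conj x)⁻¹) z :=
  ContDiffAt.inv (cd_conj z) (by simpa using hz)

lemma dzb_inv {z : ℂ} (hz : z ≠ 0) : dzb (fun x : ℂ => x⁻¹) z = 0 :=
  dzb_holo (differentiableAt_inv hz)

lemma dz_cinv {z : ℂ} (hz : z ≠ 0) : dz (fun x : ℂ => (conj x)⁻¹) z = 0 := by
  have h1 : (fun x : ℂ => (conj x)⁻¹) = fun x => conj ((fun y : ℂ => y⁻¹) x) := by
    ext x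
    simp
  rw [h1, dz_conj ((cd_inv hz).differentiableAt (by simp)), dzb_inv hz, map_zero]

/-- the two test functions -/
lemma stk_tst1 {χ : ℂ → ℂ} (hχ : Tst {0}ᶜ χ) : Tst {0}ᶜ (fun z => z⁻¹ * χ z) ∧
    ∀ z, dzb (fun z => z⁻¹ * χ z) z = dzb χ z / z := by
  have h1 := stk_div hχ (g := fun z => z⁻¹) fun z hz => cd_inv hz
  refine ⟨h1, fun z => ?_⟩
  by_cases hz : z = 0
  · have h2 : z ∉ tsupport (fun z => z⁻¹ * χ z) := fun h => h1.sub h (by simp [hz])
    rw [dzb_eq_zero h2, hz, div_zero]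
  · rw [dzb_mul ((cd_inv hz).differentiableAt (by simp)) (hχ.differentiable z), dzb_inv hz]
    field_simp
    ring

lemma stk_tst2 {χ : ℂ → ℂ} (hχ : Tst {0}ᶜ χ) : Tst {0}ᶜ (fun z => (conj z)⁻¹ * χ z) ∧
    ∀ z, dz (fun z => (conj z)⁻¹ * χ z) z = dz χ z / conj z := by
  have h1 := stk_div hχ (g := fun z => (conj z)⁻¹) fun z hz => cd_cinv hz
  refine ⟨h1, fun z => ?_⟩
  by_cases hz : z = 0
  · have h2 : z ∉ tsupport (fun z => (conj z)⁻¹ * χ z) := fun h => h1.sub h (by simp [hz])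
    rw [dz_eq_zero h2, hz, map_zero, div_zero]
  · rw [dz_mul ((cd_cinv hz).differentiableAt (by simp)) (hχ.differentiable z), dz_cinv hz]
    rw [zero_mul, zero_add, div_eq_mul_inv, mul_comm]

lemma meas_ann (l : ℂ) : MeasurableSet (ann l) :=
  (measurableSet_le measurable_const measurable_norm).inter
    (measurableSet_lt measurable_norm measurable_const)

lemma stk_cpt (l : ℂ) : IsCompact {ξ : ℂ | 1 ≤ ‖ξ‖ ∧ ‖ξ‖ ≤ Real.exp l.re} := by
  refine Metric.isCompact_of_isClosed_isBounded ?_ ?_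
  · exact (isClosed_le continuous_const continuous_norm).inter
      (isClosed_le continuous_norm continuous_const)
  · refine (Metric.isBounded_closedBall (x := (0 : ℂ)) (r := Real.exp l.re)).subset ?_
    intro ξ hξ
    simpa using hξ.2

lemma ann_lt_top (l : ℂ) : volume (ann l) < ⊤ :=
  (measure_mono (fun _ hξ => ⟨hξ.1, hξ.2.le⟩ :
    ann l ⊆ {ξ : ℂ | 1 ≤ ‖ξ‖ ∧ ‖ξ‖ ≤ Real.exp l.re})).trans_lt (stk_cpt l).measure_lt_top

/-- square integrability of a quotient on the annulus -/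
lemma stk_quot {w a : ℂ → ℂ} (hw : Continuous w) (hw0 : ∀ ξ, ξ ≠ 0 → w ξ ≠ 0) (ha : L2 univ a)
    (hm : Measurable a) (l : ℂ) : MemLp (fun ξ => a ξ / w ξ) 2 (volume.restrict (ann l)) := by
  have hK := stk_cpt l
  have hsub : ann l ⊆ {ξ : ℂ | 1 ≤ ‖ξ‖ ∧ ‖ξ‖ ≤ Real.exp l.re} := fun _ hξ => ⟨hξ.1, hξ.2.le⟩
  have haK : MemLp a 2 (volume.restrict (ann l)) :=
    (ha _ (subset_univ _) hK).mono_measure (Measure.restrict_mono hsub le_rfl)
  have hcont : ContinuousOn (fun ξ => (w ξ)⁻¹) {ξ : ℂ | 1 ≤ ‖ξ‖ ∧ ‖ξ‖ ≤ Real.exp l.re} := by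
    refine hw.continuousOn.inv₀ fun ξ hξ => hw0 ξ ?_
    intro h
    have := hξ.1
    rw [h, norm_zero] at this
    linarith
  obtain ⟨C, hC⟩ := hK.exists_bound_of_continuousOn hcont
  refine haK.of_le_mul (c := C) (hm.div hw.measurable).aestronglyMeasurable ?_
  filter_upwards [ae_restrict_mem (meas_ann l)] with ξ hξ
  rw [div_eq_mul_inv, norm_mul, mul_comm]
  exact mul_le_mul_of_nonneg_right (hC ξ (hsub hξ)) (norm_nonneg _)

/-- an integrable product -/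
lemma stk_prod {A g : ℂ → ℂ} {l : ℂ} (hA : MemLp A 2 (volume.restrict (ann l)))
    (hg : Measurable g) (hb : ∀ ξ, ‖g ξ‖ ≤ ‖ξ‖⁻¹) : IntegrableOn (fun ξ => A ξ * g ξ) (ann l) := by
  have hfin : IsFiniteMeasure ((volume : Measure ℂ).restrict (ann l)) :=
    ⟨by rw [Measure.restrict_apply_univ]; exact ann_lt_top l⟩
  have h1 : MemLp (fun ξ => A ξ * g ξ) 2 (volume.restrict (ann l)) := by
    refine hA.of_le_mul (c := 1) (hA.1.mul hg.aestronglyMeasurable) ?_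
    filter_upwards [ae_restrict_mem (meas_ann l)] with ξ hξ
    have h2 : ‖g ξ‖ ≤ 1 := (hb ξ).trans (inv_le_one_of_one_le₀ hξ.1)
    rw [norm_mul, one_mul]
    exact mul_le_of_le_one_right (norm_nonneg _) h2
  exact h1.integrable (by norm_num)

lemma stk_pow {w : ℂ → ℂ} {e L : ℂ} (he : e ≠ 0) (hL : L ≠ 0) (h : ∀ ξ, w (e * ξ) = L * w ξ) :
    ∀ (n : ℤ) (ξ : ℂ), w (e ^ n * ξ) = L ^ n * w ξ := by
  have h1 : ∀ (n : ℕ) (ξ : ℂ), w (e ^ n * ξ) = L ^ n * w ξ := by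
    intro n
    induction n with
    | zero => intro ξ; simp
    | succ n ih =>
      intro ξ
      rw [pow_succ', mul_assoc, h, ih, pow_succ', mul_assoc]
  intro n ξ
  obtain ⟨m, rfl | rfl⟩ := n.eq_nat_or_neg
  · simpa using h1 m ξ
  · have h2 := h1 m (e ^ (-(m : ℤ)) * ξ)
    rw [← mul_assoc, zpow_neg, zpow_natCast, mul_inv_cancel₀ (pow_ne_zero _ he), one_mul] at h2
    rw [zpow_neg, zpow_natCast, zpow_neg, zpow_natCast, h2, ← mul_assoc,
      inv_mul_cancel₀ (pow_ne_zero _ hL), one_mul]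

lemma stk_cmul {w a b : ℂ → ℂ} (L : ℂ) (h : WD univ w a b) :
    WD univ (fun z => L * w z) (fun z => L * a z) (fun z => L * b z) := by
  refine ⟨continuousOn_const.mul h.cont, fun K hK hKc => (h.l2a K hK hKc).const_mul L,
    fun K hK hKc => (h.l2b K hK hKc).const_mul L, fun φ hφ => ?_, fun φ hφ => ?_⟩
  · have := h.dz φ hφ
    simp only [mul_assoc]
    rw [integral_const_mul, integral_const_mul, this]
    ring
  · have := h.dzb φ hφ
    simp only [mul_assoc]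
    rw [integral_const_mul, integral_const_mul, this]
    ring

theorem pSTK (hRCH : StRCH) (hUNG : StUNG) (hLWT : StLWT) (hUNW : StUNW) (hPRW : StPRW) :
    Pool.Agent.Helper68.QC.StSTK := by
  intro hEX hCVM hLog hEqv k hk0 hk1 μ hμ l hl hinv
  obtain ⟨a, b, hwd, hb, hma, -, hcv⟩ := hCVM k hk1 μ hμ
  obtain ⟨Ψ, hΨc, hΨ, hΨ1⟩ := hLog k hk1 μ hμ
  obtain ⟨hL1, heq⟩ := hEqv k hk1 μ hμ l hl hinv
  have hN := hEX k hk1 μ hμ
  obtain ⟨χ, hT, hχ01, hκ12, hfold, hsum⟩ := hRCH l hl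
  generalize nq μ = w at *
  have hnn : ((‖Complex.exp l‖ ^ 2 : ℝ) : ℂ) = Complex.exp l * conj (Complex.exp l) := by
    rw [Complex.mul_conj, Complex.normSq_eq_norm_sq]
  have he0 : Complex.exp l ≠ 0 := Complex.exp_ne_zero l
  have hlog0 : Real.log ‖Complex.exp l‖ = l.re := by rw [Complex.norm_exp, Real.log_exp]
  have hE1 : 1 < ‖Complex.exp l‖ := by
    rw [Complex.norm_exp]
    exact Real.one_lt_exp_iff.2 hl
  rw [hnn] at hfold
  generalize hel : Complex.exp l = e at *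
  set L : ℂ := w e with hLdef
  have hw0 : w 0 = 0 := hN.zero
  have hw1 : w 1 = 1 := hN.one
  have hwne : ∀ ξ, ξ ≠ 0 → w ξ ≠ 0 := fun ξ hξ h => hξ (w.injective (by rw [h, hw0]))
  have hL0 : L ≠ 0 := hwne e he0
  set κ : ℂ := Ψ e with hκ
  have hexpκ : Complex.exp κ = L / e := by
    have := hΨ e he0
    rw [hLdef, this, hκ]
    field_simp
  have hshift : ∀ ξ, ξ ≠ 0 → Ψ (e * ξ) = Ψ ξ + κ := by
    have hg : ContinuousOn (fun ξ => Ψ (e * ξ) - Ψ ξ) {0}ᶜ := by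
      refine ContinuousOn.sub (hΨc.comp (by fun_prop) ?_) hΨc
      intro ξ hξ
      simp only [mem_compl_iff, mem_singleton_iff, mul_eq_zero, not_or] at hξ ⊢
      exact ⟨he0, hξ⟩
    intro ξ hξ
    have := stk_const hg (κ := κ) (fun x hx => ?_) (by simp [hΨ1, hκ]) ξ hξ
    · linear_combination this
    · rw [Complex.exp_sub, hexpκ, div_eq_div_iff (Complex.exp_ne_zero _) he0]
      have h1 := hΨ (e * x) (mul_ne_zero he0 hx)
      have h2 := hΨ x hx
      rw [heq, h2] at h1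
      refine mul_left_cancel₀ hx ?_
      linear_combination -h1
  have hexpl : Complex.exp (l + κ) = L := by
    rw [Complex.exp_add, hel, hexpκ]
    field_simp
  have hlre : (l + κ).re = Real.log ‖L‖ := by
    rw [← hexpl, Complex.norm_exp, Real.log_exp]
  have hlpos : 0 < (l + κ).re := by
    rw [hlre]
    exact Real.log_pos hL1
  -- derivatives
  have hder : (∀ᵐ z, a (e * z) * e = L * a z) ∧ (∀ᵐ z, b (e * z) * conj e = L * b z) := by
    have hd : ∀ z, deriv (fun z : ℂ => e * z) z = e := by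
      intro z
      simp
    have h1 := hPRW univ univ w a b (fun z => e * z) isOpen_univ isOpen_univ (by fun_prop)
      (fun x _ y _ h => mul_left_cancel₀ he0 h) (fun _ _ => mem_univ _)
      (fun z _ => by rw [hd]; exact he0) hwd
    simp only [hd] at h1
    have h3 := hUNW univ _ _ _ _ _ _ isOpen_univ (fun z _ => heq z) h1 (stk_cmul L hwd)
    simpa only [Measure.restrict_univ] using h3
  have hmb : Measurable b := by
    have : b = fun z => μ z * a z := funext hb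
    rw [this]
    exact hμ.meas.mul hma
  have hne : ∀ᵐ ξ : ℂ, ξ ≠ 0 := by
    have := compl_mem_ae_iff.2 (measure_singleton (μ := volume) (0 : ℂ))
    exact this
  have hce0 : conj e ≠ 0 := by simpa using he0
  have hce : ∀ ξ : ℂ, ξ ≠ 0 → conj ξ ≠ 0 := fun ξ h => by simpa using h
  have inv1 : ∀ᵐ ξ : ℂ, (b (e * ξ) / (w (e * ξ) * (e * ξ))) * (e * conj e) =
      b ξ / (w ξ * ξ) := by
    filter_upwards [hder.2, hne] with ξ h hξ
    have h1 := hwne ξ hξ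
    rw [heq, div_mul_eq_mul_div, div_eq_div_iff (by positivity) (by positivity)]
    linear_combination (e * (w ξ * ξ)) * h
  have inv2 : ∀ᵐ ξ : ℂ, ((a (e * ξ) / w (e * ξ) - 1 / (e * ξ)) * (conj (e * ξ))⁻¹) *
      (e * conj e) = (a ξ / w ξ - 1 / ξ) * (conj ξ)⁻¹ := by
    filter_upwards [hder.1, hne] with ξ h hξ
    have h1 := hwne ξ hξ
    have h2 := hce ξ hξ
    have h3 : a (e * ξ) = L * a ξ / e := by
      rw [← h]
      field_simp
    rw [heq, map_mul, h3]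
    field_simp
  have inv4 : ∀ᵐ ξ : ℂ, ((((e * ξ) * conj (e * ξ))⁻¹) * (e * conj e)) = (ξ * conj ξ)⁻¹ := by
    filter_upwards [hne] with ξ hξ
    have h2 := hce ξ hξ
    rw [map_mul]
    field_simp
  have inv3 : ∀ᵐ ξ : ℂ, ((((‖a (e * ξ)‖ ^ 2 - ‖b (e * ξ)‖ ^ 2) / ‖w (e * ξ)‖ ^ 2 : ℝ) : ℂ) *
      (e * conj e)) = (((‖a ξ‖ ^ 2 - ‖b ξ‖ ^ 2) / ‖w ξ‖ ^ 2 : ℝ) : ℂ) := by
    filter_upwards [hder.1, hder.2, hne] with ξ h h' hξ
    have h1 := norm_ne_zero_iff.2 (hwne ξ hξ)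
    have h2 : ‖a (e * ξ)‖ * ‖e‖ = ‖L‖ * ‖a ξ‖ := by rw [← norm_mul, h, norm_mul]
    have h3 : ‖b (e * ξ)‖ * ‖e‖ = ‖L‖ * ‖b ξ‖ := by
      rw [← norm_mul L, ← h', norm_mul, RCLike.norm_conj]
    have he' := norm_ne_zero_iff.2 he0
    have hL' := norm_ne_zero_iff.2 hL0
    rw [← hnn, ← Complex.ofReal_mul, heq, norm_mul]
    congr 1
    have h4 : ‖a (e * ξ)‖ = ‖L‖ * ‖a ξ‖ / ‖e‖ := by
      rw [← h2]
      field_simp
    have h5 : ‖b (e * ξ)‖ = ‖L‖ * ‖b ξ‖ / ‖e‖ := by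
      rw [← h3]
      field_simp
    rw [h4, h5]
    field_simp
  -- integrability on the annulus
  have hwc : Continuous w := w.continuous
  have qa := stk_quot hwc hwne hwd.l2a hma l
  have qb := stk_quot hwc hwne hwd.l2b hmb l
  have hginv : Measurable (fun ξ : ℂ => ξ⁻¹) := measurable_inv
  have hgc : Measurable (fun ξ : ℂ => (conj ξ)⁻¹) := (Complex.continuous_conj.measurable).inv
  have hq : MemLp (fun ξ : ℂ => 1 / ξ) 2 (volume.restrict (ann l)) :=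
    stk_quot (w := fun ξ => ξ) (a := fun _ => 1) continuous_id (fun ξ h => h)
      (L2.of_continuousOn continuousOn_const) measurable_const l
  have i1 : IntegrableOn (fun ξ => b ξ / (w ξ * ξ)) (ann l) := by
    have := stk_prod qb hginv (fun ξ => by rw [norm_inv])
    simpa only [div_mul_eq_div_div, div_eq_mul_inv, mul_inv, mul_assoc] using this
  have i2 : IntegrableOn (fun ξ => (a ξ / w ξ - 1 / ξ) * (conj ξ)⁻¹) (ann l) :=
    stk_prod (qa.sub hq) hgc (fun ξ => by rw [norm_inv, RCLike.norm_conj])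
  have i4 : IntegrableOn (fun ξ : ℂ => (ξ * conj ξ)⁻¹) (ann l) := by
    have := stk_prod hq hgc (fun ξ => by rw [norm_inv, RCLike.norm_conj])
    simpa only [one_div, mul_inv] using this
  have i3a : IntegrableOn (fun ξ => ‖a ξ‖ ^ 2 / ‖w ξ‖ ^ 2) (ann l) := by
    have := (memLp_two_iff_integrable_sq_norm qa.1).1 qa
    simp only [norm_div, div_pow] at this
    exact this
  have i3b : IntegrableOn (fun ξ => ‖b ξ‖ ^ 2 / ‖w ξ‖ ^ 2) (ann l) := by
    have := (memLp_two_iff_integrable_sq_norm qb.1).1 qb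
    simp only [norm_div, div_pow] at this
    exact this
  have i3r : IntegrableOn (fun ξ => (‖a ξ‖ ^ 2 - ‖b ξ‖ ^ 2) / ‖w ξ‖ ^ 2) (ann l) := by
    have := i3a.sub i3b
    refine this.congr (ae_of_all _ fun ξ => ?_)
    simp only [Pi.sub_apply, sub_div]
  have i3 : IntegrableOn (fun ξ => (((‖a ξ‖ ^ 2 - ‖b ξ‖ ^ 2) / ‖w ξ‖ ^ 2 : ℝ) : ℂ)) (ann l) :=
    i3r.ofReal
  have F1 := (hfold (fun ξ => b ξ / (w ξ * ξ)) i1 inv1).2
  have F2 := (hfold (fun ξ => (a ξ / w ξ - 1 / ξ) * (conj ξ)⁻¹) i2 inv2).2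
  have F3 := (hfold (fun ξ => (((‖a ξ‖ ^ 2 - ‖b ξ‖ ^ 2) / ‖w ξ‖ ^ 2 : ℝ) : ℂ)) i3 inv3).2
  have F4 := (hfold (fun ξ => (ξ * conj ξ)⁻¹) i4 inv4).2
  -- Stokes
  obtain ⟨hκ1, hκ2⟩ := hκ12 κ Ψ hΨc hshift
  have hW := hLWT w Ψ a b hwd hΨc hΨ
  obtain ⟨t1, d1⟩ := stk_tst1 hT
  obtain ⟨t2, d2⟩ := stk_tst2 hT
  have G1 : ∫ ξ, (χ ξ : ℂ) * (b ξ / (w ξ * ξ)) = Real.pi * κ := by
    have h1 := hW.dzb _ t1
    simp only [d1] at h1
    rw [hκ1] at h1
    have h2 : ∀ ξ, (χ ξ : ℂ) * (b ξ / (w ξ * ξ)) = b ξ / w ξ * (ξ⁻¹ * χ ξ) := by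
      intro ξ
      rw [div_mul_eq_div_div, div_eq_mul_inv _ ξ]
      ring
    simp only [h2]
    exact (neg_injective h1).symm
  have G2 : ∫ ξ, (χ ξ : ℂ) * ((a ξ / w ξ - 1 / ξ) * (conj ξ)⁻¹) = Real.pi * κ := by
    have h1 := hW.dz _ t2
    simp only [d2] at h1
    rw [hκ2] at h1
    have h2 : ∀ ξ, (χ ξ : ℂ) * ((a ξ / w ξ - 1 / ξ) * (conj ξ)⁻¹) =
        (a ξ / w ξ - 1 / ξ) * ((conj ξ)⁻¹ * χ ξ) := by
      intro ξ
      ring
    simp only [h2]
    exact (neg_injective h1).symm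
  -- the cutoff
  have hχc : Continuous χ := by
    have := Complex.continuous_re.comp hT.continuous
    simpa [Function.comp_def] using this
  have hsupp : tsupport χ = tsupport (fun z => (χ z : ℂ)) := by
    unfold tsupport
    congr 1
    ext z
    simp [Function.mem_support]
  have hχk : HasCompactSupport χ := by
    rw [HasCompactSupport, hsupp]
    exact hT.cpt
  have hχs : tsupport χ ⊆ {0}ᶜ := by
    rw [hsupp]
    exact hT.sub
  have U1 := hUNG e χ hE1 hχc hχk hχs (fun z => (hχ01 z).1) hsum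
  rw [hlog0] at U1
  have G4 : ∫ ξ : ℂ, (χ ξ : ℂ) * (ξ * conj ξ)⁻¹ = 2 * Real.pi * l.re := by
    have h1 : ∀ ξ : ℂ, (χ ξ : ℂ) * (ξ * conj ξ)⁻¹ = ((χ ξ / ‖ξ‖ ^ 2 : ℝ) : ℂ) := by
      intro ξ
      rw [Complex.mul_conj, Complex.normSq_eq_norm_sq]
      push_cast
      rw [div_eq_mul_inv]
    simp only [h1]
    rw [integral_complex_ofReal, U1]
    push_cast
    ring
  -- the Jacobian
  have hpow := stk_pow he0 hL0 heq
  set G : ℂ → ℝ := fun η => χ (w.symm η) with hG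
  have hGc : Continuous G := hχc.comp w.symm.continuous
  have hGk : HasCompactSupport G := hχk.comp_homeomorph w.symm
  have hGs : tsupport G ⊆ {0}ᶜ := by
    have h0 := tsupport_comp_eq_preimage χ w.symm
    intro η hη h1
    have h2 : G = χ ∘ w.symm := rfl
    rw [h2, h0] at hη
    have h3 : w.symm η ∈ tsupport χ := hη
    have h4 : w.symm 0 = 0 := by
      rw [Homeomorph.symm_apply_eq, hw0]
    rw [mem_singleton_iff.1 h1, h4] at h3
    exact hχs h3 rfl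
  have hGsum : ∀ η, η ≠ 0 → HasSum (fun n : ℤ => G (L ^ n * η)) 1 := by
    intro η hη
    have h1 : w.symm η ≠ 0 := by
      intro h
      apply hη
      rw [← w.apply_symm_apply η, h, hw0]
    have h2 := hsum (w.symm η) h1
    have h3 : ∀ n : ℤ, G (L ^ n * η) = χ (e ^ n * w.symm η) := by
      intro n
      have : w.symm (L ^ n * η) = e ^ n * w.symm η := by
        rw [Homeomorph.symm_apply_eq, hpow, w.apply_symm_apply]
      rw [hG]
      simp only
      rw [this]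
    simpa only [h3] using h2
  have U2 := hUNG L G hL1 hGc hGk hGs (fun z => (hχ01 _).1) hGsum
  rw [← hlre] at U2
  have hbn : ∀ z, ‖b z‖ ^ 2 ≤ k ^ 2 * ‖a z‖ ^ 2 := by
    intro z
    rw [hb, norm_mul, mul_pow]
    exact mul_le_mul_of_nonneg_right (pow_le_pow_left₀ (norm_nonneg _) (hμ.le z) 2) (by positivity)
  have hk2 : k ^ 2 ≤ 1 := by nlinarith
  have hJ : ∀ z, 0 ≤ ‖a z‖ ^ 2 - ‖b z‖ ^ 2 := by
    intro z
    have h1 := hbn z
    have h2 : k ^ 2 * ‖a z‖ ^ 2 ≤ 1 * ‖a z‖ ^ 2 := mul_le_mul_of_nonneg_right hk2 (by positivity)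
    linarith
  have G3 : ∫ ξ, χ ξ * ((‖a ξ‖ ^ 2 - ‖b ξ‖ ^ 2) / ‖w ξ‖ ^ 2) = 2 * Real.pi * (l + κ).re := by
    have m1 : Measurable fun ξ => χ ξ * ((‖a ξ‖ ^ 2 - ‖b ξ‖ ^ 2) / ‖w ξ‖ ^ 2) :=
      hχc.measurable.mul (((hma.norm.pow_const 2).sub (hmb.norm.pow_const 2)).div
        (hwc.measurable.norm.pow_const 2))
    have m2 : Measurable fun η => G η / ‖η‖ ^ 2 := hGc.measurable.div (measurable_norm.pow_const 2)
    rw [← U2, integral_eq_lintegral_of_nonneg_ae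
      (ae_of_all _ fun ξ => mul_nonneg (hχ01 ξ).1 (div_nonneg (hJ ξ) (by positivity)))
      m1.aestronglyMeasurable, integral_eq_lintegral_of_nonneg_ae
      (ae_of_all _ fun ξ => div_nonneg (hχ01 _).1 (by positivity)) m2.aestronglyMeasurable]
    congr 1
    rw [← hcv (fun η => ENNReal.ofReal (G η / ‖η‖ ^ 2)) m2.ennreal_ofReal]
    refine lintegral_congr fun z => ?_
    have h2 : G (w z) = χ z := by simp [hG]
    rw [h2, ← ENNReal.ofReal_mul (div_nonneg (hχ01 z).1 (by positivity))]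
    congr 1
    ring
  have F3r : ∫ ξ in ann l, (‖a ξ‖ ^ 2 - ‖b ξ‖ ^ 2) / ‖w ξ‖ ^ 2 = 2 * Real.pi * (l + κ).re := by
    rw [← G3]
    have h1 : ∀ ξ, (χ ξ : ℂ) * (((‖a ξ‖ ^ 2 - ‖b ξ‖ ^ 2) / ‖w ξ‖ ^ 2 : ℝ) : ℂ) =
        ((χ ξ * ((‖a ξ‖ ^ 2 - ‖b ξ‖ ^ 2) / ‖w ξ‖ ^ 2) : ℝ) : ℂ) := fun ξ =>
      (Complex.ofReal_mul _ _).symm
    simp only [h1] at F3
    rw [integral_complex_ofReal, integral_complex_ofReal] at F3
    exact (Complex.ofReal_injective F3).symm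
  refine ⟨l + κ, a, b, hwd, hb, hexpl, fun ξ => by rw [hexpl]; exact heq ξ, hlpos, i3a, ?_, ?_, ?_⟩
  · rw [← F3r, ← integral_const_mul]
    refine integral_mono (i3a.const_mul _) i3r fun ξ => ?_
    simp only
    rw [← mul_div_assoc]
    refine div_le_div_of_nonneg_right ?_ (by positivity)
    have := hbn ξ
    linarith
  · rw [← F1, G1]
    ring
  · rw [F2] at G2
    rw [F4] at G4
    have h1 : ∀ ξ, a ξ / (w ξ * conj ξ) =
        (a ξ / w ξ - 1 / ξ) * (conj ξ)⁻¹ + (ξ * conj ξ)⁻¹ := by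
      intro ξ
      rw [mul_inv, div_mul_eq_div_div, div_eq_mul_inv _ (conj ξ)]
      ring
    simp only [h1]
    rw [integral_add i2 i4, G2, G4]
    ring

end Pool.Agent.Helper30.QCM
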